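import Pool.Agent.W958.Dag.Alg

/-!
# A word as a path graph: `L` is in `P` if `L`-DAGREACH is
-/

set_option autoImplicit false

namespace Pool.Agent.W958.Dag

open Pool.Agent.NPC

variable {k : ℕ}

/-- the edges of the path labelled by `w` -/
def pathE (w : Word k) : List (Edge k) := w.zipIdx.map fun p => (p.2, p.1, p.2 + 1)

/-- the path labelled by `w`, as an instance -/
def pathI (w : Word k) : Inst k := (((List.range (w.length + 1), pathE w), 0), w.length)

theorem mem_pathE {w : Word k} {u v : ℕ} {a : Fin k} :
    (u, a, v) ∈ pathE w ↔ w[u]? = some a ∧ v = u + 1 := by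
  unfold pathE
  rw [List.mem_map]
  constructor
  · rintro ⟨⟨b, i⟩, h, h'⟩
    simp only [Prod.mk.injEq] at h'
    obtain ⟨rfl, rfl, rfl⟩ := h'
    exact ⟨List.mem_zipIdx_iff_getElem?.1 h, rfl⟩
  · rintro ⟨h, rfl⟩
    exact ⟨(a, u), List.mem_zipIdx_iff_getElem?.2 h, rfl⟩

theorem path_pathE {w w' : Word k} {u v : ℕ} (h : Path (pathE w) u w' v) :
    v = u + w'.length ∧ w' = (w.drop u).take w'.length := by
  induction h with
  | nil u => simp
  | cons h _ ih =>
    rename_i u v x a w1 h'
    obtain ⟨h1, rfl⟩ := mem_pathE.1 h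
    obtain ⟨h2, h3⟩ := ih
    refine ⟨by rw [h2, List.length_cons]; omega, ?_⟩
    obtain ⟨hu, h4⟩ := List.getElem?_eq_some_iff.1 h1
    rw [List.drop_eq_getElem_cons hu, h4, List.length_cons, List.take_succ_cons, ← h3]

theorem path_self (w : Word k) : Path (pathE w) 0 w w.length := by
  have key : ∀ w2 w1 : Word k, w1 ++ w2 = w → Path (pathE w) w1.length w2 w.length := by
    intro w2
    induction w2 with
    | nil =>
      intro w1 h
      rw [List.append_nil] at h
      rw [h]
      exact .nil _
    | cons a w2 ih =>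
      intro w1 h
      have h1 := ih (w1 ++ [a]) (by simpa using h)
      rw [List.length_append, List.length_singleton] at h1
      refine .cons (mem_pathE.2 ⟨?_, rfl⟩) h1
      rw [← h]
      simp
  exact key w [] rfl

theorem dagReach_pathI (par : Bool) (L : Set (Word k)) (w : Word k) :
    w ∈ L ↔ DagReach par L (pathI w) := by
  constructor
  · intro hw
    refine ⟨⟨?_, ?_, ?_, ?_, ?_⟩, w, hw, path_self w⟩
    · rintro ⟨u, a, v⟩ he
      obtain ⟨h1, h2⟩ := mem_pathE.1 he
      obtain ⟨hu, -⟩ := List.getElem?_eq_some_iff.1 h1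
      change u ∈ List.range (w.length + 1) ∧ v ∈ List.range (w.length + 1)
      rw [List.mem_range, List.mem_range]
      omega
    · exact List.mem_range.2 (Nat.succ_pos _)
    · exact List.mem_range.2 (Nat.lt_succ_self _)
    · intro v w' h
      have := (path_pathE h).1
      exact List.length_eq_zero_iff.1 (by omega)
    · intro _ u v a b ha hb
      have h1 := (mem_pathE.1 ha).1
      rw [(mem_pathE.1 hb).1] at h1
      exact (Option.some.inj h1).symm
  · rintro ⟨-, w', hw', h⟩
    have h' : Path (pathE w) 0 w' w.length := h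
    obtain ⟨h1, h2⟩ := path_pathE h'
    rw [zero_add] at h1
    rw [List.drop_zero, ← h1, List.take_length] at h2
    rwa [← h2]

theorem poly_pathI : Poly (pathI (k := k)) := by
  unfold pathI pathE
  have h1 : Poly (fun w : Word k => List.range (w.length + 1)) :=
    ((UPoly.length (NPC.Poly.id (α := Word k))).add (UPoly.const 1)).range
  refine Poly.pair (Poly.pair (Poly.pair h1 ?_) (by fun_prop)) (by fun_prop)
  fun_prop

theorem langInP_of_dagReach {par : Bool} {L : Set (Word k)} (h : DagReachInP par L) :
    LangInP L :=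
  InPP.of_poly h poly_pathI (dagReach_pathI par L)

theorem dbl_preimage (A : Set (Word k)) : {x | x ++ x ∈ Dbl A} = A := by
  ext x
  constructor
  · intro h
    exact h x rfl
  · intro hx y hy
    have hl : x.length = y.length := by
      have := congrArg List.length hy
      simp at this
      omega
    obtain ⟨e1, -⟩ := List.append_inj hy hl
    rwa [← e1]

/-- For every class closed under preimages of `x ↦ x ++ x`. -/
theorem class_iff (par : Bool) (𝒞 : ∀ k, Set (List (Fin k)) → Prop)
    (h𝒞 : ∀ k L, 𝒞 k L → 𝒞 k {x | x ++ x ∈ L}) :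
    (∀ k (L : Set (List (Fin k))), DagReachInP par L → 𝒞 k L) ↔
      ∀ k (L : Set (List (Fin k))), LangInP L → 𝒞 k L := by
  constructor
  · intro h k A hA
    have := h𝒞 k _ (h k _ (dagReachInP_dbl par hA))
    rwa [dbl_preimage] at this
  · intro h k L hL
    exact h k L (langInP_of_dagReach hL)

end Pool.Agent.W958.Dag
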