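import Pool.Agent.W958.Dag.Table
import Pool.Agent.H671R2.PolyAuto
import Pool.Agent.NPC.Dec
import Pool.Agent.H622R2.CoNP

/-!
# The decision procedure runs in polynomial time
-/

set_option autoImplicit false

namespace Pool.Agent.W958.Dag

open Pool.Agent.NPC

/-! ### Letters -/

/-- Decoding of letters. -/
def finDec (k : ℕ) (n : ℕ) : Option (Fin k) := if h : n < k then some ⟨n, h⟩ else none

theorem poly_finDec (k : ℕ) : Poly (finDec k) := by
  have h1 : Poly (fun n : ℕ => if n < k then some n else none) := by fun_prop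
  refine Poly.of_toT ((Poly.toT' h1).congr fun n => ?_)
  unfold finDec
  by_cases h : n < k
  · rw [if_pos h, dif_pos h]; rfl
  · rw [if_neg h, dif_neg h]; rfl

instance finTDec (k : ℕ) : TDec (Fin k) :=
  TDec.of (β := ℕ) (fun a => (a : ℕ)) (finDec k) (fun _ => rfl)
    (fun a => by unfold finDec; rw [dif_pos a.2])
    (fun n a h => by
      unfold finDec at h
      split_ifs at h with hn
      simp only [Option.some.injEq] at h
      rw [← h])
    (poly_finDec k)

variable {k : ℕ}

theorem sz_fin_le (a : Fin k) : sz a ≤ 2 * sz k := by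
  change sz (a : ℕ) ≤ _
  exact sz_nat_mono_le a.2.le

/-- The test for a language in `P`. -/
theorem exists_poly_test {A : Set (Word k)} (h : LangInP A) :
    ∃ g : Word k → Bool, Poly g ∧ ∀ w, w ∈ A ↔ g w = true := by
  obtain ⟨V, hV, hV'⟩ := InPP.exists_test h
  have pV := Pool.Agent.H622R2.poly_of_polyTime hV
  have pb : Poly (fun w : Word k => bits w) := by
    obtain ⟨c, p, h⟩ := PC.ofBits
    exact ⟨c, p, fun a => h (bits a)⟩
  refine ⟨fun w => decide (V (bits w) = [true]), ?_, fun w => ?_⟩
  · exact Poly.decide_eq (pV.comp pb) (NPC.Poly.const _)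
  · rw [hV' w, decide_eq_true_eq]

/-! ### The pieces -/

variable {α : Type} [TEnc α]

theorem poly_toList {β : Type} [TEnc β] {o : α → Option β} (ho : Poly o) :
    Poly (fun a => (o a).toList) :=
  (Poly.optElim (g := fun _ => []) (h := fun _ b => [b]) ho (NPC.Poly.const _) (by fun_prop)).congr
    fun a => by cases o a <;> rfl

theorem poly_two {l : α → List (Word k)} (hl : Poly l) : Poly (fun a => two (l a)) := by
  refine (Poly.listCases (g := fun _ => []) (h := fun _ w l =>
    w :: (l.filter fun x => !decide (x = w)).head?.toList) hl (NPC.Poly.const _) ?_).congr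
    fun a => ?_
  · refine Poly.cons (by fun_prop) (poly_toList (Poly.head? ?_))
    fun_prop
  · cases l a <;> rfl

theorem poly_look {tab : α → Tab k} {u : α → ℕ} (ht : Poly tab) (hu : Poly u) :
    Poly (fun a => look (tab a) (u a)) := by
  unfold look
  fun_prop

theorem poly_ext {E : α → List (Edge k)} {tab : α → Tab k} {v : α → ℕ} (hE : Poly E)
    (ht : Poly tab) (hv : Poly v) : Poly (fun a => ext (E a) (tab a) (v a)) := by
  unfold ext
  refine Poly.flatMap (F := fun a e => if e.1 = v a then
    (look (tab a) e.2.2).map fun w => e.2.1 :: w else []) hE ?_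
  have h1 : Poly (fun p : α × Edge k => look (tab p.1) p.2.2.2) :=
    poly_look (ht.comp (Poly.fst Poly.id)) (by fun_prop)
  fun_prop

theorem poly_step {V : α → List ℕ} {E : α → List (Edge k)} {tab : α → Tab k} (hV : Poly V)
    (hE : Poly E) (ht : Poly tab) : Poly (fun a => step (V a) (E a) (tab a)) := by
  unfold step
  refine NPC.Poly.map (F := fun a v => (v, two (ext (E a) (tab a) v))) hV (Poly.pair (by fun_prop) ?_)
  exact poly_two (poly_ext (hE.comp (Poly.fst Poly.id)) (ht.comp (Poly.fst Poly.id))
    (Poly.snd Poly.id))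

theorem poly_init {V : α → List ℕ} {t : α → ℕ} (hV : Poly V) (ht : Poly t) :
    Poly (fun a => (init (V a) (t a) : Tab k)) := by
  unfold init
  fun_prop

theorem poly_rev {E : α → List (Edge k)} (hE : Poly E) : Poly (fun a => rev (E a)) := by
  unfold rev
  fun_prop

theorem poly_chk {g : Word k → Bool} (hg : Poly g) {V : α → List ℕ} {E : α → List (Edge k)}
    {tb tf : α → Tab k} (hV : Poly V) (hE : Poly E) (hb : Poly tb) (hf : Poly tf) :
    Poly (fun a => chk g (V a) (E a) (tb a) (tf a)) := by
  unfold chk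
  refine Poly.or (Poly.any (p := fun a e => !(look (tf a) e.1).isEmpty &&
    !(look (tb a) e.2.2).isEmpty) hE ?_) (Poly.any (p := fun a u =>
      (look (tf a) u).any fun p => (look (tb a) u).any fun q =>
      !decide (p.reverse = q) || g q) hV ?_)
  · have h1 : Poly (fun p : α × Edge k => look (tf p.1) p.2.1) :=
      poly_look (hf.comp (Poly.fst Poly.id)) (by fun_prop)
    have h2 : Poly (fun p : α × Edge k => look (tb p.1) p.2.2.2) :=
      poly_look (hb.comp (Poly.fst Poly.id)) (by fun_prop)
    fun_prop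
  · have h1 : Poly (fun p : α × ℕ => look (tf p.1) p.2) :=
      poly_look (hf.comp (Poly.fst Poly.id)) (by fun_prop)
    have h2 : Poly (fun p : (α × ℕ) × Word k => look (tb p.1.1) p.1.2) :=
      poly_look (hb.comp (Poly.fst (Poly.fst Poly.id))) (by fun_prop)
    refine Poly.any (p := fun (x : α × ℕ) p => (look (tb x.1) x.2).any fun q =>
      !decide (p.reverse = q) || g q) h1 ?_
    refine Poly.any (p := fun (x : (α × ℕ) × Word k) q => !decide (x.2.reverse = q) || g q) h2 ?_
    have h3 : Poly (fun x : ((α × ℕ) × Word k) × Word k => g x.2) := hg.comp (Poly.snd Poly.id)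
    fun_prop

/-! ### Sizes -/

/-- Invariant for the size of the tables. -/
def Small (V : List ℕ) (j : ℕ) (tab : Tab k) : Prop :=
  tab.length = V.length ∧ ∀ p ∈ tab, p.1 ∈ V ∧ p.2.length ≤ 2 ∧ ∀ w ∈ p.2, w.length = j

theorem small_init (V : List ℕ) (t : ℕ) : Small V 0 (init V t : Tab k) := by
  refine ⟨by simp [init], fun p hp => ?_⟩
  obtain ⟨v, hv, rfl⟩ := List.mem_map.1 hp
  refine ⟨hv, ?_, ?_⟩
  · simp only; split_ifs <;> simp
  · intro w hw
    simp only at hw
    split_ifs at hw
    · simpa using hw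
    · simp at hw

theorem small_step {V : List ℕ} {E : List (Edge k)} {j : ℕ} {tab : Tab k} (h : Small V j tab) :
    Small V (j + 1) (step V E tab) := by
  refine ⟨by simp [step], fun p hp => ?_⟩
  obtain ⟨v, hv, rfl⟩ := List.mem_map.1 hp
  refine ⟨hv, two_length _, ?_⟩
  intro w hw
  obtain ⟨a, y, w', -, hw', rfl⟩ := mem_ext.1 (mem_of_mem_two hw)
  unfold look at hw'
  obtain ⟨p, hp, hw'⟩ := List.mem_flatMap.1 hw'
  split_ifs at hw'
  · simp [(h.2 p hp).2.2 w' hw']
  · simp at hw'

theorem small_table (V : List ℕ) (E : List (Edge k)) (t : ℕ) : ∀ j, Small V j (table V E t j)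
  | 0 => small_init V t
  | j + 1 => by
    have e : table V E t (j + 1) = step V E (table V E t j) := by
      unfold table
      rw [Function.iterate_succ_apply']
    rw [e]
    exact small_step (small_table V E t j)

theorem sz_of_small {V : List ℕ} {j n : ℕ} {tab : Tab k} (h : Small V j tab) (hV : V.length ≤ n)
    (hv : ∀ v ∈ V, sz v ≤ n) (hj : j ≤ n) :
    sz tab ≤ n * (n + 2 * (n * (2 * sz k + 1) + 2) + 3) + 1 := by
  have h1 : ∀ p ∈ tab, sz p ≤ n + 2 * (n * (2 * sz k + 1) + 2) + 2 := by
    rintro ⟨v, ws⟩ hp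
    obtain ⟨h2, h3, h4⟩ := h.2 _ hp
    simp only at h2 h3 h4
    have h5 : ∀ w ∈ ws, sz w ≤ n * (2 * sz k + 1) + 1 := by
      intro w hw
      have := sz_le_length_mul w (2 * sz k) (fun a _ => sz_fin_le a)
      rw [h4 w hw] at this
      refine this.trans (Nat.add_le_add_right (Nat.mul_le_mul_right _ hj) 1)
    have h6 := sz_le_length_mul ws (n * (2 * sz k + 1) + 1) h5
    have h7 := hv v h2
    have h8 : ws.length * (n * (2 * sz k + 1) + 1 + 1) ≤ 2 * (n * (2 * sz k + 1) + 1 + 1) :=
      Nat.mul_le_mul_right _ h3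
    rw [sz_pair]
    omega
  have h2 := sz_le_length_mul tab _ h1
  rw [h.1] at h2
  refine h2.trans (Nat.add_le_add_right (Nat.mul_le_mul hV (by omega)) 1)

/-! ### The decision function -/

/-- One round. -/
def round (g : Word k → Bool) (x : List ℕ × List (Edge k)) (st : Tab k × Tab k × Bool) :
    Tab k × Tab k × Bool :=
  (step x.1 x.2 st.1, step x.1 (rev x.2) st.2.1, st.2.2 || chk g x.1 x.2 st.1 st.2.1)

theorem round_iterate (g : Word k → Bool) (V : List ℕ) (E : List (Edge k)) (s t : ℕ) : ∀ n,
    ((round g (V, E))^[n] (init V t, init V s, false)).1 = table V E t n ∧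
    ((round g (V, E))^[n] (init V t, init V s, false)).2.1 = table V (rev E) s n ∧
    (((round g (V, E))^[n] (init V t, init V s, false)).2.2 = true ↔
      ∃ j, j < n ∧ chk g V E (table V E t j) (table V (rev E) s j) = true)
  | 0 => ⟨rfl, rfl, by simp⟩
  | n + 1 => by
    obtain ⟨h1, h2, h3⟩ := round_iterate g V E s t n
    rw [Function.iterate_succ_apply']
    refine ⟨?_, ?_, ?_⟩
    · simp only [round, h1]
      unfold table
      rw [Function.iterate_succ_apply']
    · simp only [round, h2]
      unfold table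
      rw [Function.iterate_succ_apply']
    · simp only [round, h1, h2, Bool.or_eq_true, h3]
      constructor
      · rintro (⟨j, hj, h⟩ | h)
        · exact ⟨j, by omega, h⟩
        · exact ⟨n, by omega, h⟩
      · rintro ⟨j, hj, h⟩
        rcases Nat.lt_succ_iff_lt_or_eq.1 hj with hj | rfl
        · exact Or.inl ⟨j, hj, h⟩
        · exact Or.inr h

/-- The test for a path with yield in `Dbl A`. -/
def reachT (g : Word k → Bool) (I : Inst k) : Bool :=
  ((round g I.1.1)^[((0, 0) :: I.1.1.2.map fun _ => (0, 0)).length]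
    (init I.1.1.1 I.2, init I.1.1.1 I.1.2, false)).2.2

theorem poly_round {g : Word k → Bool} (hg : Poly g) :
    Poly (fun p : Inst k × (Tab k × Tab k × Bool) => round g p.1.1.1 p.2) := by
  unfold round
  have hV : Poly (fun p : Inst k × (Tab k × Tab k × Bool) => p.1.1.1.1) := by fun_prop
  have hE : Poly (fun p : Inst k × (Tab k × Tab k × Bool) => p.1.1.1.2) := by fun_prop
  have h1 : Poly (fun p : Inst k × (Tab k × Tab k × Bool) => p.2.1) := by fun_prop
  have h2 : Poly (fun p : Inst k × (Tab k × Tab k × Bool) => p.2.2.1) := by fun_prop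
  have h3 : Poly (fun p : Inst k × (Tab k × Tab k × Bool) => p.2.2.2) := by fun_prop
  exact Poly.pair (poly_step hV hE h1) (Poly.pair (poly_step hV (poly_rev hE) h2)
    (Poly.or h3 (poly_chk hg hV hE h1 h2)))

theorem poly_reachT {g : Word k → Bool} (hg : Poly g) : Poly (reachT g) := by
  unfold reachT
  refine Poly.snd (Poly.snd ?_)
  have hi1 : Poly (fun I : Inst k => (init I.1.1.1 I.2 : Tab k)) :=
    poly_init (by fun_prop) (by fun_prop)
  have hi2 : Poly (fun I : Inst k => (init I.1.1.1 I.1.2 : Tab k)) :=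
    poly_init (by fun_prop) (by fun_prop)
  have hl : Poly (fun I : Inst k => (((0, 0) : ℕ × ℕ) :: I.1.1.2.map fun _ => (0, 0))) := by
    fun_prop
  refine Poly.iterLen (l := fun I : Inst k => (((0, 0) : ℕ × ℕ) :: I.1.1.2.map fun _ => (0, 0)))
    (F := fun I => round g I.1.1) (s := fun I : Inst k => (init I.1.1.1 I.2, init I.1.1.1 I.1.2, false))
    hl (Poly.pair hi1 (Poly.pair hi2 (NPC.Poly.const _))) (poly_round hg)
    (Polynomial.C 2 * (Polynomial.X * (Polynomial.X + Polynomial.C 2 *
      (Polynomial.X * (Polynomial.C (2 * sz k + 1)) + Polynomial.C 2) + Polynomial.C 3) +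
      Polynomial.C 1) + Polynomial.C 5) ?_
  rintro ⟨⟨⟨V, E⟩, s⟩, t⟩ j hj
  obtain ⟨h1, h2, -⟩ := round_iterate g V E s t j
  simp only [List.length_cons, List.length_map] at hj
  have e1 : sz ((((V, E), s), t) : Inst k) = sz V + sz E + sz s + sz t + 3 := by
    simp only [sz_pair]; omega
  have e2 := length_lt_sz V
  have e3 := length_lt_sz E
  have e4 : ∀ v ∈ V, sz v ≤ sz ((((V, E), s), t) : Inst k) := by
    intro v hv
    have := sz_le_of_mem hv
    omega
  have s1 := sz_of_small (small_table V E t j) (n := sz ((((V, E), s), t) : Inst k)) (by omega) e4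
    (by omega)
  have s2 := sz_of_small (small_table V (rev E) s j) (n := sz ((((V, E), s), t) : Inst k))
    (by omega) e4 (by omega)
  generalize hst : (round g (V, E))^[j] (init V t, init V s, false) = st at h1 h2
  obtain ⟨tb, tf, b⟩ := st
  simp only at h1 h2
  subst h1 h2
  have e5 := sz_bool_le b
  rw [sz_pair, sz_pair]
  simp only [Polynomial.eval_add, Polynomial.eval_mul, Polynomial.eval_C, Polynomial.eval_X]
  omega

/-- The test for being a directed acyclic graph (with two vertices). -/
def dagT (par : Bool) (I : Inst k) : Bool :=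
  (I.1.1.2.all fun e => decide (e.1 ∈ I.1.1.1) && decide (e.2.2 ∈ I.1.1.1)) &&
  (decide (I.1.2 ∈ I.1.1.1) && (decide (I.2 ∈ I.1.1.1) &&
  ((firsts I.1.1.2 I.1.1.2.length).isEmpty &&
  (par || I.1.1.2.all fun e => I.1.1.2.all fun e' =>
    !decide (e.1 = e'.1) || (!decide (e.2.2 = e'.2.2) || decide (e.2.1 = e'.2.1))))))

theorem sz_filter_le {β : Type} [TEnc β] (l : List β) (p : β → Bool) : sz (l.filter p) ≤ sz l := by
  induction l with
  | nil => simp
  | cons a l ih =>
    rw [List.filter_cons]
    split_ifs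
    · simp only [sz_list_cons]; omega
    · simp only [sz_list_cons]; omega

theorem poly_firsts : Poly (fun I : Inst k => firsts I.1.1.2 I.1.1.2.length) := by
  unfold firsts
  refine Poly.iterLen (l := fun I : Inst k => I.1.1.2) (F := fun I F =>
    I.1.1.2.filter fun e => F.any fun e' => decide (e'.1 = e.2.2)) (s := fun I : Inst k => I.1.1.2)
    (by fun_prop) (by fun_prop) (by fun_prop) Polynomial.X ?_
  rintro ⟨⟨⟨V, E⟩, s⟩, t⟩ j -
  have e1 : sz ((((V, E), s), t) : Inst k) = sz V + sz E + sz s + sz t + 3 := by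
    simp only [sz_pair]; omega
  rw [Polynomial.eval_X, e1]
  cases j with
  | zero => simp only [Function.iterate_zero, id_eq]; omega
  | succ j =>
    rw [Function.iterate_succ_apply']
    have := sz_filter_le E (fun e => ((fun F => E.filter fun e => F.any fun e' =>
      decide (e'.1 = e.2.2))^[j] E).any fun e' => decide (e'.1 = e.2.2))
    exact this.trans (by omega)

theorem poly_dagT (par : Bool) : Poly (dagT (k := k) par) := by
  unfold dagT
  have h1 := poly_firsts (k := k)
  refine Poly.and (by fun_prop) (Poly.and (by fun_prop) (Poly.and (by fun_prop)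
    (Poly.and (by fun_prop) (Poly.or (by fun_prop) ?_))))
  fun_prop

theorem dagT_iff (par : Bool) (I : Inst k) : IsDag par I ↔ dagT par I = true := by
  obtain ⟨⟨⟨V, E⟩, s⟩, t⟩ := I
  simp only [dagT, Bool.and_eq_true, List.all_eq_true, decide_eq_true_eq, List.isEmpty_iff,
    Bool.or_eq_true, Bool.not_eq_true', decide_eq_false_iff_not]
  rw [← acyclic_iff]
  constructor
  · rintro ⟨h1, h2, h3, h4, h5⟩
    refine ⟨h1, h2, h3, h4, ?_⟩
    cases par with
    | true => simp
    | false =>
      right
      rintro ⟨u, a, v⟩ he ⟨u', b, v'⟩ he'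
      by_cases hu : u = u'
      · by_cases hv : v = v'
        · subst hu hv
          exact Or.inr (Or.inr (h5 rfl u v a b he he'))
        · exact Or.inr (Or.inl hv)
      · exact Or.inl hu
  · rintro ⟨h1, h2, h3, h4, h5⟩
    refine ⟨h1, h2, h3, h4, ?_⟩
    rintro rfl u v a b ha hb
    rcases h5 with h5 | h5
    · simp at h5
    · rcases h5 _ ha _ hb with h | h | h
      · exact absurd rfl h
      · exact absurd rfl h
      · exact h

/-- DAG reachability for `Dbl A` is in `P` if `A` is. -/
theorem dagReachInP_dbl (par : Bool) {A : Set (Word k)} (hA : LangInP A) :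
    DagReachInP par (Dbl A) := by
  obtain ⟨g, hg, hgA⟩ := exists_poly_test hA
  refine inPP_of (d := fun I => dagT par I && reachT g I)
    (Poly.and (poly_dagT par) (poly_reachT hg)) fun I => ?_
  rw [Bool.and_eq_true, ← dagT_iff]
  unfold DagReach
  refine and_congr_right fun hI => ?_
  obtain ⟨⟨⟨V, E⟩, s⟩, t⟩ := I
  change (∃ w ∈ Dbl A, Path E s w t) ↔ _
  have hx := exists_chk_iff (V := V) (E := E) (s := s) (t := t) hI.vert hI.s_mem hI.acyclic hgA
  rw [← hx]
  have := (round_iterate g V E s t (E.length + 1)).2.2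
  rw [← this]
  unfold reachT
  simp

end Pool.Agent.W958.Dag
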