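import Pool.Agent.W958.Dag.Defs

/-!
# Paths in labelled graphs, acyclicity
-/

set_option autoImplicit false

namespace Pool.Agent.W958.Dag

variable {k : ℕ} {E : List (Edge k)}

theorem Path.append {u v x : ℕ} {w w' : List (Fin k)} (h : Path E u w v) (h' : Path E v w' x) :
    Path E u (w ++ w') x := by
  induction h with
  | nil u => exact h'
  | cons h _ ih => exact .cons h (ih h')

theorem Path.split {x : ℕ} : ∀ {w w' : List (Fin k)} {u : ℕ}, Path E u (w ++ w') x →
    ∃ v, Path E u w v ∧ Path E v w' x
  | [], w', u, h => ⟨u, .nil u, h⟩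
  | a :: w, w', u, h => by
    cases h with
    | cons h h' =>
      obtain ⟨v, h1, h2⟩ := Path.split h'
      exact ⟨v, .cons h h1, h2⟩

theorem Path.single {u v : ℕ} {a : Fin k} (h : (u, a, v) ∈ E) : Path E u [a] v :=
  .cons h (.nil v)

/-- the reversed graph -/
def rev (E : List (Edge k)) : List (Edge k) := E.map fun e => (e.2.2, e.2.1, e.1)

theorem mem_rev {u v : ℕ} {a : Fin k} : (u, a, v) ∈ rev E ↔ (v, a, u) ∈ E := by
  unfold rev
  rw [List.mem_map]
  constructor
  · rintro ⟨⟨x, b, y⟩, h, h'⟩
    simp only [Prod.mk.injEq] at h'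
    obtain ⟨rfl, rfl, rfl⟩ := h'
    exact h
  · intro h
    exact ⟨_, h, rfl⟩

theorem rev_rev : rev (rev E) = E := by
  unfold rev
  rw [List.map_map]
  conv_rhs => rw [← List.map_id E]
  rfl

theorem Path.rev {u v : ℕ} {w : List (Fin k)} (h : Path E u w v) :
    Path (Dag.rev E) v w.reverse u := by
  induction h with
  | nil u => exact .nil u
  | cons h _ ih =>
    rw [List.reverse_cons]
    exact ih.append (.single (mem_rev.2 h))

theorem path_rev {u v : ℕ} {w : List (Fin k)} : Path (rev E) u w v ↔ Path E v w.reverse u := by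
  constructor
  · intro h
    have := h.rev
    rwa [rev_rev] at this
  · intro h
    have := h.rev
    rwa [List.reverse_reverse] at this

theorem Path.edges (e0 : Edge k) {u v : ℕ} {w : List (Fin k)} (h : Path E u w v) :
    ∃ c : ℕ → Edge k, (∀ i < w.length, c i ∈ E) ∧ (0 < w.length → (c 0).1 = u) ∧
      ∀ i, i + 1 < w.length → (c i).2.2 = (c (i + 1)).1 := by
  induction h with
  | nil u => exact ⟨fun _ => e0, by simp, by simp, by simp⟩
  | cons h _ ih =>
    rename_i u v x a w h'
    obtain ⟨c, h1, h2, h3⟩ := ih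
    refine ⟨fun i => Nat.casesOn i (u, a, v) fun j => c j, ?_, by simp, ?_⟩
    · intro i hi
      cases i with
      | zero => exact h
      | succ i => exact h1 i (by simpa using hi)
    · intro i hi
      cases i with
      | zero => exact (h2 (by simpa using hi)).symm
      | succ i => exact h3 i (by simpa using hi)

/-- A long path contains a cycle. -/
theorem Path.exists_cycle {u v : ℕ} {w : List (Fin k)} (h : Path E u w v)
    (hl : E.length < w.length) : ∃ x c, Path E x c x ∧ c ≠ [] := by
  have hne : ∃ e0 : Edge k, e0 ∈ E := by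
    cases h with
    | nil => simp at hl
    | cons h _ => exact ⟨_, h⟩
  obtain ⟨e0, -⟩ := hne
  obtain ⟨c, h1, -, h3⟩ := h.edges e0
  have key : ∀ d i, i + d < w.length → ∃ w', Path E (c i).1 w' (c (i + d)).1 ∧ w'.length = d := by
    intro d
    induction d with
    | zero => intro i _; exact ⟨[], .nil _, rfl⟩
    | succ d ih =>
      intro i hi
      obtain ⟨w', hw', hd⟩ := ih i (by omega)
      refine ⟨w' ++ [(c (i + d)).2.1], hw'.append (.single ?_), by simp [hd]⟩
      rw [← add_assoc, ← h3 (i + d) (by omega)]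
      exact h1 _ (by omega)
  obtain ⟨i, j, hij, hc⟩ := Fintype.exists_ne_map_eq_of_card_lt
    (fun i : Fin w.length => (⟨c i, by simpa using h1 i i.2⟩ : {e // e ∈ E.toFinset})) (by
      rw [Fintype.card_coe, Fintype.card_fin]
      exact (List.toFinset_card_le E).trans_lt hl)
  simp only [Subtype.mk.injEq] at hc
  have main : ∀ i j : Fin w.length, i < j → c i = c j → ∃ x c, Path E x c x ∧ c ≠ [] := by
    intro i j hij hc
    obtain ⟨w', hw', hd⟩ := key (j - i) i (by omega)
    have e : (i : ℕ) + (j - i) = j := by omega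
    rw [e, ← hc] at hw'
    refine ⟨_, w', hw', ?_⟩
    rintro rfl
    simp at hd
    omega
  rcases lt_or_gt_of_ne hij with h | h
  · exact main i j h hc
  · exact main j i h hc.symm

theorem Path.length_le_of_acyclic (hac : ∀ v w, Path E v w v → w = []) {u v : ℕ}
    {w : List (Fin k)} (h : Path E u w v) : w.length ≤ E.length := by
  by_contra hl
  obtain ⟨x, c, h1, h2⟩ := h.exists_cycle (by omega)
  exact h2 (hac x c h1)

/-- the edges that start a path of length `j + 1` -/
def firsts (E : List (Edge k)) : ℕ → List (Edge k) :=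
  fun j => (fun F => E.filter fun e => F.any fun e' => decide (e'.1 = e.2.2))^[j] E

theorem mem_firsts : ∀ {j : ℕ} {e : Edge k}, e ∈ firsts E j ↔
    e ∈ E ∧ ∃ w v, Path E e.2.2 w v ∧ w.length = j
  | 0, e => by
    constructor
    · intro h
      exact ⟨h, [], _, .nil _, rfl⟩
    · rintro ⟨h, -⟩
      exact h
  | j + 1, e => by
    have e1 : firsts E (j + 1) = E.filter fun e => (firsts E j).any fun e' =>
        decide (e'.1 = e.2.2) := by
      unfold firsts
      rw [Function.iterate_succ_apply']
    rw [e1, List.mem_filter, List.any_eq_true]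
    constructor
    · rintro ⟨he, e', he', h⟩
      obtain ⟨h1, w, v, h2, h3⟩ := mem_firsts.1 he'
      refine ⟨he, e'.2.1 :: w, v, ?_, by simp [h3]⟩
      have : e'.1 = e.2.2 := by simpa using h
      rw [← this]
      exact .cons h1 h2
    · rintro ⟨he, w, v, h, hl⟩
      refine ⟨he, ?_⟩
      obtain ⟨u', a, v'⟩ := e
      cases h with
      | nil => simp at hl
      | @cons _ y _ b w h h' =>
        exact ⟨(v', b, y), mem_firsts.2 ⟨h, w, v, h', by simpa using hl⟩, by simp⟩

theorem acyclic_iff : (∀ v w, Path E v w v → w = []) ↔ firsts E E.length = [] := by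
  constructor
  · intro hac
    rw [List.eq_nil_iff_forall_not_mem]
    intro e he
    obtain ⟨h1, w, v, h2, h3⟩ := mem_firsts.1 he
    have := Path.length_le_of_acyclic hac (u := e.1) (w := e.2.1 :: w) (.cons h1 h2)
    simp at this
    omega
  · intro h v w hw
    by_contra hne
    have key : ∀ n : ℕ, ∃ w', Path E v w' v ∧ n ≤ w'.length := by
      intro n
      induction n with
      | zero => exact ⟨[], .nil v, le_rfl⟩
      | succ n ih =>
        obtain ⟨w', h1, h2⟩ := ih
        refine ⟨w ++ w', hw.append h1, ?_⟩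
        have := List.length_pos_of_ne_nil hne
        simp; omega
    obtain ⟨w', h1, h2⟩ := key (E.length + 1)
    cases h1 with
    | nil => simp at h2
    | @cons _ y _ a w1 h1 h1' =>
      have e : w1 = w1.take E.length ++ w1.drop E.length := (List.take_append_drop _ _).symm
      rw [e] at h1'
      obtain ⟨z, h3, -⟩ := h1'.split
      have h4 : (v, a, y) ∈ firsts E E.length := mem_firsts.2 ⟨h1, _, z, h3, by
        simp at h2 ⊢; omega⟩
      rw [h] at h4
      simp at h4

end Pool.Agent.W958.Dag
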