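import Pool.Agent.NPC.Classes

/-!
# Language-constrained reachability in directed acyclic graphs
-/

set_option autoImplicit false

namespace Pool.Agent.W958.Dag

open Pool.Agent.NPC

/-- Letters are coded as natural numbers in binary. -/
instance finEnc (k : ℕ) : TEnc (Fin k) :=
  ⟨fun a => toT (a : ℕ), fun _ _ h => Fin.ext (TEnc.inj h)⟩

/-- A labelled edge `(u, a, v)` goes from `u` to `v` and carries the label `a`. -/
abbrev Edge (k : ℕ) := ℕ × Fin k × ℕ

/-- An instance `(((V, E), s), t)`: a list of vertices, a list of labelled edges, a source and a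
target. -/
abbrev Inst (k : ℕ) := ((List ℕ × List (Edge k)) × ℕ) × ℕ

variable {k : ℕ}

/-- The vertices. -/
def Inst.V (I : Inst k) : List ℕ := I.1.1.1

/-- The edges. -/
def Inst.E (I : Inst k) : List (Edge k) := I.1.1.2

/-- The source. -/
def Inst.s (I : Inst k) : ℕ := I.1.2

/-- The target. -/
def Inst.t (I : Inst k) : ℕ := I.2

/-- `Path E u w v`: some directed path from `u` to `v` has yield `w`. -/
inductive Path (E : List (Edge k)) : ℕ → List (Fin k) → ℕ → Prop
  | nil (u : ℕ) : Path E u [] u
  | cons {u v x : ℕ} {a : Fin k} {w : List (Fin k)} (h : (u, a, v) ∈ E) (h' : Path E v w x) :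
      Path E u (a :: w) x

/-- The instance is a finite directed acyclic graph with two of its vertices; if `par` is `false`,
there are no parallel edges. -/
structure IsDag (par : Bool) (I : Inst k) : Prop where
  /-- edges run between vertices -/
  vert : ∀ e ∈ Inst.E I, e.1 ∈ Inst.V I ∧ e.2.2 ∈ Inst.V I
  /-- the source is a vertex -/
  s_mem : Inst.s I ∈ Inst.V I
  /-- the target is a vertex -/
  t_mem : Inst.t I ∈ Inst.V I
  /-- there are no directed cycles -/
  acyclic : ∀ v w, Path (Inst.E I) v w v → w = []
  /-- there are no parallel edges (unless they are allowed) -/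
  simple : par = false → ∀ u v a b, (u, a, v) ∈ Inst.E I → (u, b, v) ∈ Inst.E I → a = b

/-- The problem `L`-DAGREACH. -/
def DagReach (par : Bool) (L : Set (List (Fin k))) (I : Inst k) : Prop :=
  IsDag par I ∧ ∃ w ∈ L, Path (Inst.E I) (Inst.s I) w (Inst.t I)

/-- The language `L`, over the alphabet `Fin k`, is in `P`. -/
def LangInP (L : Set (List (Fin k))) : Prop := InPP (fun w : List (Fin k) => w ∈ L)

/-- `L`-DAGREACH is in `P`. -/
def DagReachInP (par : Bool) (L : Set (List (Fin k))) : Prop := InPP (DagReach par L)

/-- The words that are not of the form `xx`, together with the words `xx` with `x ∈ A`. -/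
def Dbl (A : Set (List (Fin k))) : Set (List (Fin k)) := {w | ∀ x, w = x ++ x → x ∈ A}

end Pool.Agent.W958.Dag
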