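import Mathlib

/-!
# Logspace-uniform circuit families and the class NC

Boolean circuits of fan-in two are lists of gates, in topological order; a gate refers to earlier
gates by their position in the list, and the last gate is the output.  Inputs are words over the
alphabet `Fin k`; an input gate asks whether the `i`-th letter is `a`.

Logarithmic space is modelled by programs with finitely many registers whose contents stay bounded
by a polynomial in `n` (that is, `O(log n)` bits each), and a write-only output.
-/

set_option autoImplicit false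

namespace Pool.Agent.W958.Dag

/-- Gates of a circuit reading words over the alphabet `Fin k`. -/
inductive Gate (k : ℕ) : Type
  /-- the `i`-th letter of the input is `a` -/
  | inp (i : ℕ) (a : Fin k) : Gate k
  /-- a constant -/
  | const (b : Bool) : Gate k
  /-- the negation of gate `i` -/
  | not (i : ℕ) : Gate k
  /-- the conjunction of gates `i` and `j` -/
  | and (i j : ℕ) : Gate k
  /-- the disjunction of gates `i` and `j` -/
  | or (i j : ℕ) : Gate k

variable {k : ℕ}

/-- Replace every number `i` in a gate by `f i`. -/
def Gate.map (f : ℕ → ℕ) : Gate k → Gate k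
  | .inp i a => .inp (f i) a
  | .const b => .const b
  | .not i => .not (f i)
  | .and i j => .and (f i) (f j)
  | .or i j => .or (f i) (f j)

/-- The value of a gate on the input `x`, given the list `vs` of the values of the gates before it
(a reference to a gate that is not there reads `false`). -/
def Gate.val (x : List (Fin k)) (vs : List Bool) : Gate k → Bool
  | .inp i a => decide (x[i]? = some a)
  | .const b => b
  | .not i => !(vs.getD i false)
  | .and i j => vs.getD i false && vs.getD j false
  | .or i j => vs.getD i false || vs.getD j false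

/-- The values of all gates of a circuit. -/
def vals (x : List (Fin k)) (C : List (Gate k)) : List Bool :=
  C.foldl (fun vs g => vs ++ [g.val x vs]) []

/-- The output of a circuit: the value of its last gate. -/
def eval (x : List (Fin k)) (C : List (Gate k)) : Bool := (vals x C).getLastD false

/-- The depth of a gate, given the list `ds` of the depths of the gates before it. -/
def Gate.dep (ds : List ℕ) : Gate k → ℕ
  | .inp _ _ => 0
  | .const _ => 0
  | .not i => ds.getD i 0 + 1
  | .and i j => max (ds.getD i 0) (ds.getD j 0) + 1
  | .or i j => max (ds.getD i 0) (ds.getD j 0) + 1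

/-- The depths of all gates of a circuit. -/
def depths (C : List (Gate k)) : List ℕ := C.foldl (fun ds g => ds ++ [g.dep ds]) []

/-- The depth of a circuit: the largest depth of a gate. -/
def depth (C : List (Gate k)) : ℕ := (depths C).foldr max 0

/-- Register programs that emit gates. -/
inductive Prog (k : ℕ) : Type
  /-- do nothing -/
  | skip : Prog k
  /-- `R r := c` -/
  | const (r c : ℕ) : Prog k
  /-- `R r := R s + R t` -/
  | add (r s t : ℕ) : Prog k
  /-- `R r := R s - R t` (cut off at zero) -/
  | sub (r s t : ℕ) : Prog k
  /-- `p; q` -/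
  | seq (p q : Prog k) : Prog k
  /-- `if R r = 0 then p else q` -/
  | ifz (r : ℕ) (p q : Prog k) : Prog k
  /-- `while R r ≠ 0 do p` -/
  | loop (r : ℕ) (p : Prog k) : Prog k
  /-- write the gate `g` to the output, every number `r` in `g` being replaced by `R r` -/
  | emit (g : Gate k) : Prog k

/-- `Run B p σ σ' l`: started with the register contents `σ`, the program `p` halts with the
register contents `σ'`, having written the list of gates `l`, and all numbers it writes to registers
are at most `B`. -/
inductive Run (B : ℕ) : Prog k → (ℕ → ℕ) → (ℕ → ℕ) → List (Gate k) → Prop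
  | skip (σ : ℕ → ℕ) : Run B .skip σ σ []
  | const (σ : ℕ → ℕ) (r c : ℕ) (h : c ≤ B) : Run B (.const r c) σ (Function.update σ r c) []
  | add (σ : ℕ → ℕ) (r s t : ℕ) (h : σ s + σ t ≤ B) :
      Run B (.add r s t) σ (Function.update σ r (σ s + σ t)) []
  | sub (σ : ℕ → ℕ) (r s t : ℕ) (h : σ s - σ t ≤ B) :
      Run B (.sub r s t) σ (Function.update σ r (σ s - σ t)) []
  | seq {p q : Prog k} {σ σ' σ'' : ℕ → ℕ} {l l' : List (Gate k)} (h : Run B p σ σ' l)
      (h' : Run B q σ' σ'' l') : Run B (.seq p q) σ σ'' (l ++ l')
  | ifz0 {r : ℕ} {p q : Prog k} {σ σ' : ℕ → ℕ} {l : List (Gate k)} (h0 : σ r = 0)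
      (h : Run B p σ σ' l) : Run B (.ifz r p q) σ σ' l
  | ifz1 {r : ℕ} {p q : Prog k} {σ σ' : ℕ → ℕ} {l : List (Gate k)} (h0 : σ r ≠ 0)
      (h : Run B q σ σ' l) : Run B (.ifz r p q) σ σ' l
  | loop0 {r : ℕ} {p : Prog k} {σ : ℕ → ℕ} (h0 : σ r = 0) : Run B (.loop r p) σ σ []
  | loop1 {r : ℕ} {p : Prog k} {σ σ' σ'' : ℕ → ℕ} {l l' : List (Gate k)} (h0 : σ r ≠ 0)
      (h : Run B p σ σ' l) (h' : Run B (.loop r p) σ' σ'' l') : Run B (.loop r p) σ σ'' (l ++ l')
  | emit (σ : ℕ → ℕ) (g : Gate k) : Run B (.emit g) σ σ [g.map σ]

/-- The initial register contents on `1ⁿ`: register `0` holds `n`, the others are empty. -/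
def start (n : ℕ) : ℕ → ℕ := Function.update (fun _ => 0) 0 n

/-- Logspace-uniform families of circuits: a fixed program whose registers stay polynomially
bounded (so that they hold `O(log n)` bits) writes the `n`-th circuit. -/
def LogspaceUniform (C : ℕ → List (Gate k)) : Prop :=
  ∃ (p : Prog k) (B : Polynomial ℕ), ∀ n, ∃ σ, Run (B.eval n) p (start n) σ (C n)

/-- The class `NC^i`, for languages over the alphabet `Fin k`: logspace-uniform circuits of fan-in
two, polynomial size and depth `O(log^i n)`. -/
def InNCi (i : ℕ) (L : Set (List (Fin k))) : Prop :=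
  ∃ C : ℕ → List (Gate k), LogspaceUniform C ∧
    (∃ q : Polynomial ℕ, ∀ n, (C n).length ≤ q.eval n) ∧
    (∃ c : ℕ, ∀ n, depth (C n) ≤ c * Nat.log 2 n ^ i + c) ∧
    ∀ x : List (Fin k), x ∈ L ↔ eval x (C x.length) = true

/-- The class `NC`. -/
def InNC (L : Set (List (Fin k))) : Prop := ∃ i, InNCi i L

end Pool.Agent.W958.Dag
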