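import Pool.Agent.W958.Dag.NC

/-!
# NC is closed under the preimage of `x ↦ x ++ x`
-/

set_option autoImplicit false

namespace Pool.Agent.W958.Dag

variable {k : ℕ}

/-- Positions of `x ++ x` are folded to positions of `x`. -/
def foldG (n : ℕ) : Gate k → Gate k
  | .inp i a => .inp (if i < n then i else i - n) a
  | .const b => .const b
  | .not i => .not i
  | .and i j => .and i j
  | .or i j => .or i j

theorem val_foldG (x : List (Fin k)) (vs : List Bool) (g : Gate k) :
    (foldG x.length g).val x vs = g.val (x ++ x) vs := by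
  cases g with
  | inp i a =>
    simp only [foldG, Gate.val]
    congr 1
    rw [List.getElem?_append]
    split_ifs <;> rfl
  | _ => rfl

theorem dep_foldG (n : ℕ) (ds : List ℕ) (g : Gate k) : (foldG n g).dep ds = g.dep ds := by
  cases g <;> rfl

theorem vals_foldG (x : List (Fin k)) (C : List (Gate k)) :
    vals x (C.map (foldG x.length)) = vals (x ++ x) C := by
  unfold vals
  rw [List.foldl_map]
  simp only [val_foldG]

theorem depths_foldG (n : ℕ) (C : List (Gate k)) : depths (C.map (foldG n)) = depths C := by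
  unfold depths
  rw [List.foldl_map]
  simp only [dep_foldG]

theorem Run.mono {B B' : ℕ} (hB : B ≤ B') {p : Prog k} {σ σ' : ℕ → ℕ} {l : List (Gate k)}
    (h : Run B p σ σ' l) : Run B' p σ σ' l := by
  induction h with
  | skip σ => exact .skip σ
  | const σ r c h => exact .const σ r c (h.trans hB)
  | add σ r s t h => exact .add σ r s t (h.trans hB)
  | sub σ r s t h => exact .sub σ r s t (h.trans hB)
  | seq _ _ ih ih' => exact .seq ih ih'
  | ifz0 h0 _ ih => exact .ifz0 h0 ih
  | ifz1 h0 _ ih => exact .ifz1 h0 ih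
  | loop0 h0 => exact .loop0 h0
  | loop1 h0 _ _ ih ih' => exact .loop1 h0 ih ih'
  | emit σ g => exact .emit σ g

/-- the translated emission -/
def trE : Gate k → Prog k
  | .inp i a => .seq (.const 1 1) (.seq (.add 1 (i + 3) 1) (.seq (.sub 1 1 0)
      (.ifz 1 (.emit (.inp (i + 3) a)) (.seq (.sub 2 (i + 3) 0) (.emit (.inp 2 a))))))
  | .const b => .emit (.const b)
  | .not i => .emit (.not (i + 3))
  | .and i j => .emit (.and (i + 3) (j + 3))
  | .or i j => .emit (.or (i + 3) (j + 3))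

/-- the translated program: registers are shifted by three, register 0 keeps `n` -/
def tr : Prog k → Prog k
  | .skip => .skip
  | .const r c => .const (r + 3) c
  | .add r s t => .add (r + 3) (s + 3) (t + 3)
  | .sub r s t => .sub (r + 3) (s + 3) (t + 3)
  | .seq p q => .seq (tr p) (tr q)
  | .ifz r p q => .ifz (r + 3) (tr p) (tr q)
  | .loop r p => .loop (r + 3) (tr p)
  | .emit g => trE g

theorem run_trE {B n : ℕ} {σ τ : ℕ → ℕ} (g : Gate k) (h : ∀ r, τ (r + 3) = σ r) (h0 : τ 0 = n)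
    (hB : ∀ r, σ r ≤ B) : ∃ τ', Run (B + 1) (trE g) τ τ' [foldG n (g.map σ)] ∧
      (∀ r, τ' (r + 3) = σ r) ∧ τ' 0 = n := by
  cases g with
  | inp i a =>
    set τ1 := Function.update τ 1 1 with hτ1
    have r1 : Run (k := k) (B + 1) (.const 1 1) τ τ1 [] := .const τ 1 1 (by omega)
    have e1 : τ1 (i + 3) = σ i := by rw [hτ1, Function.update_of_ne (by omega), h]
    have e1' : τ1 1 = 1 := by rw [hτ1, Function.update_self]
    have hBi := hB i
    set τ2 := Function.update τ1 1 (τ1 (i + 3) + τ1 1) with hτ2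
    have r2 : Run (k := k) (B + 1) (.add 1 (i + 3) 1) τ1 τ2 [] :=
      .add τ1 1 (i + 3) 1 (by rw [e1, e1']; omega)
    have e2 : τ2 1 = σ i + 1 := by rw [hτ2, Function.update_self, e1, e1']
    have e2' : τ2 0 = n := by
      rw [hτ2, Function.update_of_ne (by omega), hτ1, Function.update_of_ne (by omega), h0]
    set τ3 := Function.update τ2 1 (τ2 1 - τ2 0) with hτ3
    have r3 : Run (k := k) (B + 1) (.sub 1 1 0) τ2 τ3 [] := .sub τ2 1 1 0 (by rw [e2]; omega)
    have e3 : τ3 1 = σ i + 1 - n := by rw [hτ3, Function.update_self, e2, e2']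
    have e3' : ∀ r, τ3 (r + 3) = σ r := by
      intro r
      rw [hτ3, Function.update_of_ne (by omega), hτ2, Function.update_of_ne (by omega), hτ1,
        Function.update_of_ne (by omega), h]
    have e30 : τ3 0 = n := by rw [hτ3, Function.update_of_ne (by omega), e2']
    by_cases hin : σ i < n
    · refine ⟨τ3, ?_, e3', e30⟩
      have r4 : Run (B + 1) (.emit (.inp (i + 3) a)) τ3 τ3 [Gate.map τ3 (.inp (i + 3) a)] :=
        .emit τ3 _
      have r5 := Run.seq r1 (Run.seq r2 (Run.seq r3 (Run.ifz0 (q := .seq (.sub 2 (i + 3) 0)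
        (.emit (.inp 2 a))) (show τ3 1 = 0 by rw [e3]; omega) r4)))
      have e5 : foldG n (Gate.map σ (.inp i a)) = Gate.map τ3 (.inp (i + 3) a) := by
        simp only [Gate.map, foldG, e3', if_pos hin]
      rw [e5]
      simpa [trE] using r5
    · set τ4 := Function.update τ3 2 (τ3 (i + 3) - τ3 0) with hτ4
      have r4 : Run (k := k) (B + 1) (.sub 2 (i + 3) 0) τ3 τ4 [] :=
        .sub τ3 2 (i + 3) 0 (by rw [e3']; omega)
      refine ⟨τ4, ?_, ?_, ?_⟩
      · have r4' : Run (B + 1) (.emit (.inp 2 a)) τ4 τ4 [Gate.map τ4 (.inp 2 a)] := .emit τ4 _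
        have r5 := Run.seq r1 (Run.seq r2 (Run.seq r3 (Run.ifz1 (p := .emit (.inp (i + 3) a))
          (show τ3 1 ≠ 0 by rw [e3]; omega) (Run.seq r4 r4'))))
        have e5 : foldG n (Gate.map σ (.inp i a)) = Gate.map τ4 (.inp 2 a) := by
          simp only [Gate.map, foldG, if_neg hin]
          rw [hτ4, Function.update_self, e3', e30]
        rw [e5]
        simpa [trE] using r5
      · intro r
        rw [hτ4, Function.update_of_ne (by omega), e3']
      · rw [hτ4, Function.update_of_ne (by omega), e30]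
  | const b =>
    exact ⟨τ, .emit τ _, h, h0⟩
  | not i =>
    refine ⟨τ, ?_, h, h0⟩
    have := Run.emit (B := B + 1) τ (Gate.not (k := k) (i + 3))
    simpa [Gate.map, foldG, trE, h] using this
  | and i j =>
    refine ⟨τ, ?_, h, h0⟩
    have := Run.emit (B := B + 1) τ (Gate.and (k := k) (i + 3) (j + 3))
    simpa [Gate.map, foldG, trE, h] using this
  | or i j =>
    refine ⟨τ, ?_, h, h0⟩
    have := Run.emit (B := B + 1) τ (Gate.or (k := k) (i + 3) (j + 3))
    simpa [Gate.map, foldG, trE, h] using this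

theorem run_tr {B n : ℕ} {p : Prog k} {σ σ' : ℕ → ℕ} {l : List (Gate k)} (hr : Run B p σ σ' l) :
    ∀ τ : ℕ → ℕ, (∀ r, τ (r + 3) = σ r) → τ 0 = n → (∀ r, σ r ≤ B) →
      ∃ τ', Run (B + 1) (tr p) τ τ' (l.map (foldG n)) ∧ (∀ r, τ' (r + 3) = σ' r) ∧ τ' 0 = n ∧
        (∀ r, σ' r ≤ B) := by
  have key : ∀ (τ σ : ℕ → ℕ) (r v : ℕ), (∀ r, τ (r + 3) = σ r) → ∀ s,
      Function.update τ (r + 3) v (s + 3) = Function.update σ r v s := by
    intro τ σ r v h s
    by_cases hs : s = r
    · rw [hs, Function.update_self, Function.update_self]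
    · rw [Function.update_of_ne (by omega), Function.update_of_ne hs, h]
  have key2 : ∀ (σ : ℕ → ℕ) (r v : ℕ), v ≤ B → (∀ r, σ r ≤ B) → ∀ s,
      Function.update σ r v s ≤ B := by
    intro σ r v hv h s
    by_cases hs : s = r
    · rw [hs, Function.update_self]; exact hv
    · rw [Function.update_of_ne hs]; exact h s
  induction hr with
  | skip σ =>
    intro τ h h0 hB
    exact ⟨τ, .skip τ, h, h0, hB⟩
  | const σ r c hc =>
    intro τ h h0 hB
    exact ⟨Function.update τ (r + 3) c, .const τ (r + 3) c (by omega), key τ σ r c h,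
      by rw [Function.update_of_ne (by omega), h0], key2 σ r c hc hB⟩
  | add σ r s t hc =>
    intro τ h h0 hB
    refine ⟨Function.update τ (r + 3) (τ (s + 3) + τ (t + 3)),
      .add τ (r + 3) (s + 3) (t + 3) (by rw [h, h]; omega), ?_,
      by rw [Function.update_of_ne (by omega), h0], key2 σ r _ hc hB⟩
    rw [h, h]
    exact key τ σ r _ h
  | sub σ r s t hc =>
    intro τ h h0 hB
    refine ⟨Function.update τ (r + 3) (τ (s + 3) - τ (t + 3)),
      .sub τ (r + 3) (s + 3) (t + 3) (by rw [h, h]; omega), ?_,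
      by rw [Function.update_of_ne (by omega), h0], key2 σ r _ hc hB⟩
    rw [h, h]
    exact key τ σ r _ h
  | seq _ _ ih ih' =>
    intro τ h h0 hB
    obtain ⟨τ', h1, h2, h3, h4⟩ := ih τ h h0 hB
    obtain ⟨τ'', h1', h2', h3', h4'⟩ := ih' τ' h2 h3 h4
    refine ⟨τ'', ?_, h2', h3', h4'⟩
    rw [List.map_append]
    exact .seq h1 h1'
  | ifz0 hz _ ih =>
    intro τ h h0 hB
    obtain ⟨τ', h1, h2, h3, h4⟩ := ih τ h h0 hB
    exact ⟨τ', .ifz0 (by rw [h]; exact hz) h1, h2, h3, h4⟩
  | ifz1 hz _ ih =>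
    intro τ h h0 hB
    obtain ⟨τ', h1, h2, h3, h4⟩ := ih τ h h0 hB
    exact ⟨τ', .ifz1 (by rw [h]; exact hz) h1, h2, h3, h4⟩
  | loop0 hz =>
    intro τ h h0 hB
    exact ⟨τ, .loop0 (by rw [h]; exact hz), h, h0, hB⟩
  | loop1 hz _ _ ih ih' =>
    intro τ h h0 hB
    obtain ⟨τ', h1, h2, h3, h4⟩ := ih τ h h0 hB
    obtain ⟨τ'', h1', h2', h3', h4'⟩ := ih' τ' h2 h3 h4
    refine ⟨τ'', ?_, h2', h3', h4'⟩
    rw [List.map_append]
    exact .loop1 (by rw [h]; exact hz) h1 h1'
  | emit σ g =>
    intro τ h h0 hB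
    obtain ⟨τ', h1, h2, h3⟩ := run_trE g h h0 hB
    exact ⟨τ', h1, h2, h3, hB⟩

theorem uniform_double {C : ℕ → List (Gate k)} (h : LogspaceUniform C) :
    LogspaceUniform (fun n => (C (2 * n)).map (foldG n)) := by
  obtain ⟨p, B, h⟩ := h
  refine ⟨.seq (.add 3 0 0) (tr p),
    B.comp (Polynomial.C 2 * Polynomial.X) + Polynomial.C 2 * Polynomial.X + Polynomial.C 1, ?_⟩
  intro n
  obtain ⟨σ, hσ⟩ := h (2 * n)
  have e : (B.comp (Polynomial.C 2 * Polynomial.X) + Polynomial.C 2 * Polynomial.X +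
      Polynomial.C 1).eval n = (B.eval (2 * n) + 2 * n) + 1 := by
    simp [Polynomial.eval_comp]
  rw [e]
  have hs0 : start n 0 = n := by simp [start]
  obtain ⟨τ', h1, -, -, -⟩ := run_tr (n := n) (hσ.mono (Nat.le_add_right _ (2 * n)))
    (Function.update (start n) 3 (start n 0 + start n 0)) (by
      intro r
      cases r with
      | zero => simp [start]; omega
      | succ r => simp [start, Function.update_of_ne]) (by simp [start]) (by
      intro r
      cases r with
      | zero => simp [start]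
      | succ r => simp [start])
  refine ⟨τ', ?_⟩
  have h2 : Run (k := k) (B.eval (2 * n) + 2 * n + 1) (.add 3 0 0) (start n)
      (Function.update (start n) 3 (start n 0 + start n 0)) [] :=
    .add _ 3 0 0 (by rw [hs0]; omega)
  simpa using Run.seq h2 h1

theorem log_double (i c n : ℕ) : c * Nat.log 2 (2 * n) ^ i + c ≤
    (c * 2 ^ i + c) * Nat.log 2 n ^ i + (c * 2 ^ i + c) := by
  have key : Nat.log 2 (2 * n) ^ i ≤ 2 ^ i * (Nat.log 2 n ^ i + 1) := by
    rcases Nat.eq_zero_or_pos n with hn | hn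
    · subst hn
      have : 0 < 2 ^ i := by positivity
      simp only [mul_zero]
      nlinarith [Nat.zero_le (Nat.log 2 0 ^ i)]
    · have h1 : Nat.log 2 (2 * n) = Nat.log 2 n + 1 := by
        rw [mul_comm]; exact Nat.log_mul_base (by norm_num) (by omega)
      rw [h1]
      rcases Nat.eq_zero_or_pos (Nat.log 2 n) with h2 | h2
      · rw [h2]
        have : 0 < 2 ^ i := by positivity
        simp only [zero_add, one_pow]
        nlinarith [Nat.zero_le (0 ^ i)]
      · calc (Nat.log 2 n + 1) ^ i ≤ (2 * Nat.log 2 n) ^ i := Nat.pow_le_pow_left (by omega) i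
          _ = 2 ^ i * Nat.log 2 n ^ i := mul_pow _ _ _
          _ ≤ 2 ^ i * (Nat.log 2 n ^ i + 1) := Nat.mul_le_mul_left _ (Nat.le_succ _)
  have h2 := Nat.mul_le_mul_left c key
  nlinarith [Nat.zero_le (c * Nat.log 2 n ^ i)]

theorem InNCi.double {i : ℕ} {L : Set (List (Fin k))} (h : InNCi i L) :
    InNCi i {x | x ++ x ∈ L} := by
  obtain ⟨C, hu, ⟨q, hq⟩, ⟨c, hc⟩, hL⟩ := h
  refine ⟨fun n => (C (2 * n)).map (foldG n), uniform_double hu,
    ⟨q.comp (Polynomial.C 2 * Polynomial.X), fun n => ?_⟩, ⟨c * 2 ^ i + c, fun n => ?_⟩,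
    fun x => ?_⟩
  · simpa [Polynomial.eval_comp] using hq (2 * n)
  · have h1 := hc (2 * n)
    have h2 := log_double i c n
    unfold depth at h1 ⊢
    rw [depths_foldG]
    exact h1.trans h2
  · show x ++ x ∈ L ↔ _
    rw [hL, List.length_append, ← two_mul]
    unfold eval
    rw [vals_foldG]

theorem InNC.double {L : Set (List (Fin k))} (h : InNC L) : InNC {x | x ++ x ∈ L} := by
  obtain ⟨i, h⟩ := h
  exact ⟨i, h.double⟩

end Pool.Agent.W958.Dag
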