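import Pool.Agent.W958.Dag.Comb

/-!
# Tables of yields, with at most two words per vertex, and the decision procedure
-/

set_option autoImplicit false

namespace Pool.Agent.W958.Dag

variable {k : ℕ}

/-- The words over the alphabet. -/
abbrev Word (k : ℕ) := List (Fin k)

/-- keep two distinct members of a list, if there are two -/
def two (l : List (Word k)) : List (Word k) :=
  match l with
  | [] => []
  | w :: l => w :: (l.filter fun x => !decide (x = w)).head?.toList

theorem two_length (l : List (Word k)) : (two l).length ≤ 2 := by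
  cases l with
  | nil => simp [two]
  | cons w l =>
    simp only [two, List.length_cons]
    cases (l.filter fun x => !decide (x = w)).head? <;> simp

theorem mem_of_mem_two {l : List (Word k)} {x : Word k} (h : x ∈ two l) : x ∈ l := by
  cases l with
  | nil => simp [two] at h
  | cons w l =>
    simp only [two, List.mem_cons, Option.mem_toList] at h
    rcases h with h | h
    · simp [h]
    · have h1 := List.mem_of_mem_head? h
      exact List.mem_cons_of_mem _ (List.mem_filter.1 h1).1

theorem two_complete (l : List (Word k)) :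
    (∀ x ∈ l, x ∈ two l) ∨ ∃ x y, x ∈ two l ∧ y ∈ two l ∧ x ≠ y := by
  cases l with
  | nil => left; simp
  | cons w l =>
    cases h : (l.filter fun x => !decide (x = w)).head? with
    | none =>
      left
      rw [List.head?_eq_none_iff, List.filter_eq_nil_iff] at h
      intro x hx
      rcases List.mem_cons.1 hx with hx | hx
      · simp [two, hx]
      · have := h x hx
        simp only [Bool.not_eq_true', decide_eq_false_iff_not, not_not] at this
        simp [two, this]
    | some y =>
      right
      refine ⟨w, y, by simp [two], by simp [two, h], ?_⟩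
      have h1 := List.mem_of_mem_head? h
      have h2 := (List.mem_filter.1 h1).2
      intro e
      simp [e] at h2

/-- Tables: a list of words for every vertex. -/
abbrev Tab (k : ℕ) := List (ℕ × List (Word k))

/-- the words of a vertex in a table -/
def look (tab : Tab k) (u : ℕ) : List (Word k) := tab.flatMap fun p => if p.1 = u then p.2 else []

theorem mem_look_map {V : List ℕ} {f : ℕ → List (Word k)} {u : ℕ} {w : Word k} :
    w ∈ look (V.map fun v => (v, f v)) u ↔ u ∈ V ∧ w ∈ f u := by
  unfold look
  rw [List.mem_flatMap]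
  constructor
  · rintro ⟨p, hp, hw⟩
    obtain ⟨v, hv, rfl⟩ := List.mem_map.1 hp
    simp only at hw
    split_ifs at hw with h
    · subst h
      exact ⟨hv, hw⟩
    · simp at hw
  · rintro ⟨hu, hw⟩
    exact ⟨(u, f u), List.mem_map.2 ⟨u, hu, rfl⟩, by simpa using hw⟩

/-- the extensions of the words in a table by an edge leaving `v` -/
def ext (E : List (Edge k)) (tab : Tab k) (v : ℕ) : List (Word k) :=
  E.flatMap fun e => if e.1 = v then (look tab e.2.2).map fun w => e.2.1 :: w else []

/-- the next table -/
def step (V : List ℕ) (E : List (Edge k)) (tab : Tab k) : Tab k :=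
  V.map fun v => (v, two (ext E tab v))

/-- the first table -/
def init (V : List ℕ) (t : ℕ) : Tab k := V.map fun v => (v, if v = t then [[]] else [])

theorem mem_ext {E : List (Edge k)} {tab : Tab k} {v : ℕ} {w : Word k} :
    w ∈ ext E tab v ↔ ∃ a y w', (v, a, y) ∈ E ∧ w' ∈ look tab y ∧ w = a :: w' := by
  unfold ext
  rw [List.mem_flatMap]
  constructor
  · rintro ⟨⟨u, a, y⟩, he, hw⟩
    simp only at hw
    split_ifs at hw with h
    · subst h
      obtain ⟨w', hw', rfl⟩ := List.mem_map.1 hw
      exact ⟨a, y, w', he, hw', rfl⟩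
    · simp at hw
  · rintro ⟨a, y, w', he, hw', rfl⟩
    exact ⟨_, he, by simpa using hw'⟩

/-- The `j`-th table: words of length `j` from a vertex to `t`. -/
def table (V : List ℕ) (E : List (Edge k)) (t j : ℕ) : Tab k := (step V E)^[j] (init V t)

/-- Correctness of the tables. -/
structure Good (V : List ℕ) (E : List (Edge k)) (t j : ℕ) (tab : Tab k) : Prop where
  sound : ∀ v w, w ∈ look tab v → Path E v w t ∧ w.length = j
  compl : ∀ v ∈ V, (∀ w, Path E v w t → w.length = j → w ∈ look tab v) ∨
    ∃ x y, x ∈ look tab v ∧ y ∈ look tab v ∧ x ≠ y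

theorem good_init (V : List ℕ) (E : List (Edge k)) (t : ℕ) : Good V E t 0 (init V t) := by
  constructor
  · intro v w hw
    obtain ⟨h1, h2⟩ := mem_look_map.1 hw
    split_ifs at h2 with h
    · subst h
      rw [List.mem_singleton] at h2
      subst h2
      exact ⟨.nil v, rfl⟩
    · simp at h2
  · intro v hv
    left
    intro w hw hl
    rw [List.length_eq_zero_iff] at hl
    subst hl
    cases hw
    exact mem_look_map.2 ⟨hv, by simp⟩

theorem good_step {V : List ℕ} {E : List (Edge k)} (hV : ∀ e ∈ E, e.1 ∈ V ∧ e.2.2 ∈ V) {t j : ℕ}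
    {tab : Tab k} (h : Good V E t j tab) : Good V E t (j + 1) (step V E tab) := by
  constructor
  · intro v w hw
    obtain ⟨h1, h2⟩ := mem_look_map.1 hw
    obtain ⟨a, y, w', he, hw', rfl⟩ := mem_ext.1 (mem_of_mem_two h2)
    obtain ⟨h3, h4⟩ := h.sound y w' hw'
    exact ⟨.cons he h3, by simp [h4]⟩
  · intro v hv
    by_cases hbad : ∃ a y, (v, a, y) ∈ E ∧ ∃ x z, x ∈ look tab y ∧ z ∈ look tab y ∧ x ≠ z
    · obtain ⟨a, y, he, x, z, hx, hz, hxz⟩ := hbad
      have h1 : a :: x ∈ ext E tab v := mem_ext.2 ⟨a, y, x, he, hx, rfl⟩
      have h2 : a :: z ∈ ext E tab v := mem_ext.2 ⟨a, y, z, he, hz, rfl⟩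
      right
      rcases two_complete (ext E tab v) with h3 | ⟨p, q, h3, h4, h5⟩
      · exact ⟨_, _, mem_look_map.2 ⟨hv, h3 _ h1⟩, mem_look_map.2 ⟨hv, h3 _ h2⟩, by
          simpa using hxz⟩
      · exact ⟨p, q, mem_look_map.2 ⟨hv, h3⟩, mem_look_map.2 ⟨hv, h4⟩, h5⟩
    · rcases two_complete (ext E tab v) with h3 | ⟨p, q, h3, h4, h5⟩
      · left
        intro w hw hl
        cases hw with
        | nil => simp at hl
        | @cons _ y _ a w he hw =>
          refine mem_look_map.2 ⟨hv, h3 _ (mem_ext.2 ⟨a, y, w, he, ?_, rfl⟩)⟩
          rcases h.compl y (hV _ he).2 with h6 | h6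
          · exact h6 w hw (by simpa using hl)
          · exact absurd ⟨a, y, he, h6⟩ hbad
      · right
        exact ⟨p, q, mem_look_map.2 ⟨hv, h3⟩, mem_look_map.2 ⟨hv, h4⟩, h5⟩

theorem good_table {V : List ℕ} {E : List (Edge k)} (hV : ∀ e ∈ E, e.1 ∈ V ∧ e.2.2 ∈ V) (t : ℕ) :
    ∀ j, Good V E t j (table V E t j)
  | 0 => good_init V E t
  | j + 1 => by
    have e : table V E t (j + 1) = step V E (table V E t j) := by
      unfold table
      rw [Function.iterate_succ_apply']
    rw [e]
    exact good_step hV (good_table hV t j)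

/-- The check on a table `tb` of words to `t` and a table `tf` of (reversed) words from `s`. -/
def chk (g : Word k → Bool) (V : List ℕ) (E : List (Edge k)) (tb tf : Tab k) : Bool :=
  (E.any fun e => !(look tf e.1).isEmpty && !(look tb e.2.2).isEmpty) ||
    V.any fun u => (look tf u).any fun p => (look tb u).any fun q =>
      !decide (p.reverse = q) || g q

theorem look_nonempty {V : List ℕ} {E : List (Edge k)} {t j v : ℕ} {tab : Tab k}
    (h : Good V E t j tab) (hv : v ∈ V) {w : Word k} (hw : Path E v w t) (hl : w.length = j) :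
    ∃ x, x ∈ look tab v := by
  rcases h.compl v hv with h1 | ⟨x, y, h1, -, -⟩
  · exact ⟨w, h1 w hw hl⟩
  · exact ⟨x, h1⟩

theorem Path.mem_V {V : List ℕ} {E : List (Edge k)} (hV : ∀ e ∈ E, e.1 ∈ V ∧ e.2.2 ∈ V)
    {u v : ℕ} {w : Word k} (h : Path E u w v) (hu : u ∈ V) : v ∈ V := by
  induction h with
  | nil u => exact hu
  | cons h _ ih => exact ih (hV _ h).2

/-- The checks find out whether there is a path from `s` to `t` whose yield is in `Dbl A`. -/
theorem exists_chk_iff {V : List ℕ} {E : List (Edge k)} (hV : ∀ e ∈ E, e.1 ∈ V ∧ e.2.2 ∈ V)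
    {s t : ℕ} (hs : s ∈ V) (hac : ∀ v w, Path E v w v → w = []) {A : Set (Word k)}
    {g : Word k → Bool} (hg : ∀ w, w ∈ A ↔ g w = true) :
    (∃ j, j < E.length + 1 ∧ chk g V E (table V E t j) (table V (rev E) s j) = true) ↔
      ∃ w ∈ Dbl A, Path E s w t := by
  have hV' : ∀ e ∈ rev E, e.1 ∈ V ∧ e.2.2 ∈ V := by
    rintro ⟨u, a, v⟩ he
    have := hV _ (mem_rev.1 he)
    exact ⟨this.2, this.1⟩
  constructor
  · rintro ⟨j, -, h⟩
    have hb := good_table hV t j
    have hf := good_table hV' s j
    unfold chk at h
    rw [Bool.or_eq_true] at h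
    rcases h with h | h
    · obtain ⟨⟨u, a, v⟩, he, h⟩ := List.any_eq_true.1 h
      simp only [Bool.and_eq_true, Bool.not_eq_true', List.isEmpty_eq_false_iff_exists_mem] at h
      obtain ⟨⟨p, hp⟩, ⟨q, hq⟩⟩ := h
      obtain ⟨h1, h2⟩ := hf.sound u p hp
      obtain ⟨h3, h4⟩ := hb.sound v q hq
      refine ⟨p.reverse ++ a :: q, ?_, (path_rev.1 h1).append (.cons he h3)⟩
      intro x hx
      have := congrArg List.length hx
      simp at this
      omega
    · obtain ⟨u, hu, h⟩ := List.any_eq_true.1 h
      obtain ⟨p, hp, h⟩ := List.any_eq_true.1 h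
      obtain ⟨q, hq, h⟩ := List.any_eq_true.1 h
      obtain ⟨h1, h2⟩ := hf.sound u p hp
      obtain ⟨h3, h4⟩ := hb.sound u q hq
      refine ⟨p.reverse ++ q, ?_, (path_rev.1 h1).append h3⟩
      intro x hx
      have hl : p.reverse.length = x.length := by
        have := congrArg List.length hx
        simp at this ⊢
        omega
      obtain ⟨e1, e2⟩ := List.append_inj hx hl
      simp only [Bool.or_eq_true, Bool.not_eq_true', decide_eq_false_iff_not] at h
      rcases h with h | h
      · exact absurd (e1.trans e2.symm) h
      · rw [hg, ← e2]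
        exact h
  · rintro ⟨w, hw, hp⟩
    have hlen := hp.length_le_of_acyclic hac
    rcases Nat.even_or_odd' w.length with ⟨j, hj | hj⟩
    · refine ⟨j, by omega, ?_⟩
      have hb := good_table hV t j
      have hf := good_table hV' s j
      have e : w = w.take j ++ w.drop j := (List.take_append_drop _ _).symm
      have hp' := hp
      rw [e] at hp'
      obtain ⟨u, h1, h2⟩ := hp'.split
      have hu := h1.mem_V hV hs
      have l1 : (w.take j).length = j := by simp; omega
      have l2 : (w.drop j).length = j := by simp; omega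
      have h1' : Path (rev E) u (w.take j).reverse s := h1.rev
      unfold chk
      rw [Bool.or_eq_true]
      right
      refine List.any_eq_true.2 ⟨u, hu, ?_⟩
      have conc : ∀ p q, p ∈ look (table V (rev E) s j) u → q ∈ look (table V E t j) u →
          (p.reverse ≠ q ∨ g q = true) →
          ((look (table V (rev E) s j) u).any fun p => (look (table V E t j) u).any fun q =>
            !decide (p.reverse = q) || g q) = true := by
        intro p q hp hq h
        refine List.any_eq_true.2 ⟨p, hp, List.any_eq_true.2 ⟨q, hq, ?_⟩⟩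
        simpa using h
      rcases hf.compl u hu with c1 | ⟨x, y, hx, hy, hxy⟩
      · rcases hb.compl u hu with c2 | ⟨x, y, hx, hy, hxy⟩
        · refine conc _ _ (c1 _ h1' (by simpa using l1)) (c2 _ h2 l2) ?_
          by_cases hh : w.take j = w.drop j
          · right
            rw [← hg]
            apply hw
            rw [← hh]
            rw [← hh] at e
            exact e
          · left
            rwa [List.reverse_reverse]
        · have m1 := c1 _ h1' (by simpa using l1)
          by_cases hh : (w.take j).reverse.reverse = x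
          · exact conc _ _ m1 hy (Or.inl (by rw [hh]; exact hxy))
          · exact conc _ _ m1 hx (Or.inl hh)
      · obtain ⟨z, hz⟩ := look_nonempty hb hu h2 l2
        by_cases hh : x.reverse = z
        · refine conc _ _ hy hz (Or.inl ?_)
          rw [← hh]
          intro h
          exact hxy (List.reverse_injective h).symm
        · exact conc _ _ hx hz (Or.inl hh)
    · refine ⟨j, by omega, ?_⟩
      have hb := good_table hV t j
      have hf := good_table hV' s j
      have e : w = w.take j ++ w.drop j := (List.take_append_drop _ _).symm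
      have hp' := hp
      rw [e] at hp'
      obtain ⟨u, h1, h2⟩ := hp'.split
      have hu := h1.mem_V hV hs
      have l1 : (w.take j).length = j := by simp; omega
      have l2 : (w.drop j).length = j + 1 := by simp; omega
      have h1' : Path (rev E) u (w.take j).reverse s := h1.rev
      obtain ⟨x, hx⟩ := look_nonempty hf hu h1' (by simpa using l1)
      generalize w.drop j = w2 at h2 l2
      cases h2 with
      | nil => simp at l2
      | @cons _ y _ a w2 he h2 =>
        obtain ⟨z, hz⟩ := look_nonempty hb (hV _ he).2 h2 (by simpa using l2)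
        unfold chk
        rw [Bool.or_eq_true]
        left
        refine List.any_eq_true.2 ⟨(u, a, y), he, ?_⟩
        simp only [Bool.and_eq_true, Bool.not_eq_true', List.isEmpty_eq_false_iff_exists_mem]
        exact ⟨⟨x, hx⟩, ⟨z, hz⟩⟩

end Pool.Agent.W958.Dag
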